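import Mathlib

/-!
# Rational algebraic groups over the field with `p` elements

A linear algebraic group over the field `F_p` with `p` elements which is a rational variety is given
by an invertible matrix `η` with entries in the field `F_p(y_1, ..., y_N)`: the points of the group
over a field `B` of characteristic `p` are the matrices `g` in `GL_m(B)` whose entries satisfy all
polynomial relations with coefficients in `F_p` between the entries of `η`.

* `Pt η g`: the matrix `g` is a point of the variety parametrized by `η`.
* `IsRatGroup p η`: the entries of `η` generate the field `F_p(y_1, ..., y_N)`, and the points over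
  every field of characteristic `p` form a group.
* `Normalizes p η w`: the group `C` acts on the algebraic group by algebraic automorphisms, which are
  the conjugations by the matrices `w x` in `GL_m(F_p)`.
* `RationalTwists p η w`: all twisted forms of the algebraic group by this action, over all infinite
  fields of characteristic `p`, are rational varieties.
-/

set_option autoImplicit false

namespace Pool.Agent.L7h25.LG

/-- The field `k(y_1, ..., y_N)`. -/
abbrev RF (N : ℕ) (k : Type) [Field k] : Type := FractionRing (MvPolynomial (Fin N) k)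

/-- The variable `y_i`. -/
noncomputable def yv (N : ℕ) (k : Type) [Field k] (i : Fin N) : RF N k :=
  algebraMap (MvPolynomial (Fin N) k) (RF N k) (MvPolynomial.X i)

/-- The constants: the embedding of `k` into `k(y_1, ..., y_N)`. -/
noncomputable def cst (N : ℕ) (k : Type) [Field k] : k →+* RF N k :=
  (algebraMap (MvPolynomial (Fin N) k) (RF N k)).comp MvPolynomial.C

/-- The entries of the invertible matrix `g`, as a family indexed by the pairs of indices. -/
def ent {m : ℕ} {B : Type} [Field B] (g : GL (Fin m) B) (i : Fin m × Fin m) : B :=
  (g : Matrix (Fin m) (Fin m) B) i.1 i.2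

/-- The image of the invertible matrix `g` under the homomorphism `f` of fields. -/
noncomputable def img {m : ℕ} {A B : Type} [Field A] [Field B] (f : A →+* B) (g : GL (Fin m) A) :
    GL (Fin m) B :=
  Matrix.GeneralLinearGroup.map f g

/-- The value of the polynomial `P` with integral coefficients at the entries of `g`. -/
noncomputable def ev {m : ℕ} {B : Type} [Field B] (g : GL (Fin m) B)
    (P : MvPolynomial (Fin m × Fin m) ℤ) : B :=
  MvPolynomial.eval₂ (Int.castRingHom B) (ent g) P

/-- `g` is a point of the variety parametrized by `η`: all polynomial relations with integral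
coefficients between the entries of `η` hold for the entries of `g`. -/
def Pt {m : ℕ} {A B : Type} [Field A] [Field B] (η : GL (Fin m) A) (g : GL (Fin m) B) : Prop :=
  ∀ P : MvPolynomial (Fin m × Fin m) ℤ, ev η P = 0 → ev g P = 0

/-- The entries of `η` generate the field `F_p(y_1, ..., y_N)`, and the points of the variety
parametrized by `η` over every field of characteristic `p` form a group. -/
structure IsRatGroup (p : ℕ) [Fact p.Prime] {m N : ℕ} (η : GL (Fin m) (RF N (ZMod p))) : Prop where
  gen : Subfield.closure (Set.range (ent η)) = ⊤
  one : ∀ (B : Type) [Field B] [CharP B p], Pt η (1 : GL (Fin m) B)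
  mul : ∀ (B : Type) [Field B] [CharP B p] (g h : GL (Fin m) B), Pt η g → Pt η h → Pt η (g * h)
  inv : ∀ (B : Type) [Field B] [CharP B p] (g : GL (Fin m) B), Pt η g → Pt η g⁻¹

/-- The homomorphism from the field with `p` elements to a field of characteristic `p`. -/
abbrev prm (p : ℕ) (B : Type) [Field B] [CharP B p] : ZMod p →+* B := ZMod.castHom dvd_rfl B

/-- The matrices `w x`, `x` in `C`, normalize the group of points over every field of
characteristic `p`. -/
def Normalizes (p : ℕ) [Fact p.Prime] {m N : ℕ} (η : GL (Fin m) (RF N (ZMod p))) {C : Type}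
    [Group C] (w : C →* GL (Fin m) (ZMod p)) : Prop :=
  ∀ (x : C) (B : Type) [Field B] [CharP B p] (g : GL (Fin m) B), Pt η g →
    Pt η (img (prm p B) (w x) * g * (img (prm p B) (w x))⁻¹)

/-- The subfields of `L(y_1, ..., y_N)` which contain `L` and all `x i` are equal to
`L(y_1, ..., y_N)`. -/
def Generates {N : ℕ} {L : Type} [Field L] (x : Fin N → RF N L) : Prop :=
  ∀ E : Subfield (RF N L), (∀ l, cst N L l ∈ E) → (∀ i, x i ∈ E) → E = ⊤

/-- Let `L/K` be a finite Galois extension of fields of characteristic `p` and `φ` a homomorphism of
`Gal(L/K)` to `C`. The twisted form of the variety parametrized by `η` is rational: for every `γ` in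
`Gal(L/K)` there is an endomorphism `σ` of `L(y_1, ..., y_N)` which is `γ` on `L` and maps `η` to
`w(φ γ)⁻¹ η w(φ γ)`, and there are `N` elements `x i` which are fixed by all these `σ` and generate
`L(y_1, ..., y_N)` over `L`. -/
def TwistRational (p : ℕ) [Fact p.Prime] {m N : ℕ} (η : GL (Fin m) (RF N (ZMod p))) {C : Type}
    [Group C] (w : C →* GL (Fin m) (ZMod p)) (K L : Type) [Field K] [Field L] [CharP L p]
    [Algebra K L] (φ : (L ≃ₐ[K] L) →* C) : Prop :=
  ∃ (f : RF N (ZMod p) →+* RF N L) (x : Fin N → RF N L),
    (∀ i, f (yv N (ZMod p) i) = yv N L i) ∧ Generates x ∧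
    ∀ γ : L ≃ₐ[K] L, ∃ σ : RF N L →+* RF N L,
      (∀ l, σ (cst N L l) = cst N L (γ l)) ∧ (∀ i, σ (x i) = x i) ∧
      img (σ.comp f) η = (img ((cst N L).comp (prm p L)) (w (φ γ)))⁻¹ * img f η *
        img ((cst N L).comp (prm p L)) (w (φ γ))

/-- All twisted forms over infinite fields of characteristic `p` are rational. -/
def RationalTwists (p : ℕ) [Fact p.Prime] {m N : ℕ} (η : GL (Fin m) (RF N (ZMod p))) {C : Type}
    [Group C] (w : C →* GL (Fin m) (ZMod p)) : Prop :=
  ∀ (K L : Type) [Field K] [Infinite K] [Field L] [CharP L p] [Algebra K L]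
    [FiniteDimensional K L] [IsGalois K L] (φ : (L ≃ₐ[K] L) →* C), TwistRational p η w K L φ

/-- `ι` is an isomorphism of the group `G` with the group of the points over the field with `p`
elements. -/
def IsPoints (p : ℕ) [Fact p.Prime] {m N : ℕ} (η : GL (Fin m) (RF N (ZMod p))) {G : Type} [Group G]
    (ι : G →* GL (Fin m) (ZMod p)) : Prop :=
  Function.Injective ι ∧ ∀ g : GL (Fin m) (ZMod p), (∃ a, ι a = g) ↔ Pt η g

/-- The homomorphism `φ` describes the action of `C` on the group `G` of points by conjugation with
the matrices `w x`. -/
def ConjAction {p m : ℕ} {C G : Type} [Group C] [Group G] (w : C →* GL (Fin m) (ZMod p))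
    (ι : G →* GL (Fin m) (ZMod p)) (x : C) (f : MulAut G) : Prop :=
  ∀ a, ι (f a) = w x * ι a * (w x)⁻¹

end Pool.Agent.L7h25.LG
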