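import Mathlib
import Pool.Agent.L7h25.LG.Voc
import Pool.Agent.Y60.DC.Frame

/-!
Points of varieties parametrized by matrices; generic points.
-/

set_option autoImplicit false

open scoped IntermediateField.algebraAdjoinAdjoin
open IntermediateField MvPolynomial

namespace Pool.Agent.L7h25.LG

section basic

variable {m : ℕ} {A B B' : Type} [Field A] [Field B] [Field B']

theorem ent_img (f : A →+* B) (g : GL (Fin m) A) (i : Fin m × Fin m) :
    ent (img f g) i = f (ent g i) := rfl

theorem img_img (f : A →+* B) (f' : B →+* B') (g : GL (Fin m) A) :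
    img f' (img f g) = img (f'.comp f) g := rfl

theorem img_mul (f : A →+* B) (g h : GL (Fin m) A) : img f (g * h) = img f g * img f h :=
  map_mul (Matrix.GeneralLinearGroup.map f) g h

theorem img_inv (f : A →+* B) (g : GL (Fin m) A) : img f g⁻¹ = (img f g)⁻¹ :=
  map_inv (Matrix.GeneralLinearGroup.map f) g

theorem img_one (f : A →+* B) : img f (1 : GL (Fin m) A) = 1 :=
  map_one (Matrix.GeneralLinearGroup.map f)

theorem gl_ext {g h : GL (Fin m) A} (e : ∀ i, ent g i = ent h i) : g = h := by
  apply Units.ext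
  funext i j
  exact e (i, j)

theorem img_injective (f : A →+* B) {g h : GL (Fin m) A} (e : img f g = img f h) : g = h := by
  refine gl_ext fun i => f.injective ?_
  rw [← ent_img, ← ent_img, e]

theorem ev_img (f : A →+* B) (g : GL (Fin m) A) (P : MvPolynomial (Fin m × Fin m) ℤ) :
    ev (img f g) P = f (ev g P) := by
  have h1 : eval₂Hom (Int.castRingHom B) (ent (img f g)) =
      f.comp (eval₂Hom (Int.castRingHom A) (ent g)) := by
    apply MvPolynomial.ringHom_ext
    · intro r
      rw [RingHom.comp_apply, coe_eval₂Hom, coe_eval₂Hom, eval₂_C, eval₂_C]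
      simp
    · intro i
      rw [RingHom.comp_apply, coe_eval₂Hom, coe_eval₂Hom, eval₂_X, eval₂_X]
      rfl
  exact RingHom.congr_fun h1 P

theorem ev_X (g : GL (Fin m) A) (i : Fin m × Fin m) : ev g (X i) = ent g i := eval₂_X _ _ i

theorem Pt.self (η : GL (Fin m) A) : Pt η η := fun _ h => h

theorem Pt.img {η : GL (Fin m) A} {g : GL (Fin m) B} (h : Pt η g) (f : B →+* B') :
    Pt η (img f g) := fun P hP => by
  rw [ev_img, h P hP, map_zero]

theorem pt_of_img {η : GL (Fin m) A} {g : GL (Fin m) B} (f : B →+* B') (h : Pt η (img f g)) :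
    Pt η g := fun P hP => by
  have h1 := h P hP
  rw [ev_img] at h1
  exact f.injective (h1.trans (map_zero f).symm)

/-- Homomorphisms are determined by the image of `η`. -/
theorem hom_ext_of_gen {η : GL (Fin m) A} (hη : Subfield.closure (Set.range (ent η)) = ⊤)
    (f f' : A →+* B) (h : img f η = img f' η) : f = f' := by
  have h1 : Subfield.closure (Set.range (ent η)) ≤ RingHom.eqLocusField f f' := by
    rw [Subfield.closure_le]
    rintro _ ⟨i, rfl⟩
    change f (ent η i) = f' (ent η i)
    rw [← ent_img, ← ent_img, h]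
  rw [hη] at h1
  exact RingHom.ext fun x => h1 (Subfield.mem_top x)

/-- Generic points give homomorphisms. -/
theorem exists_hom (η : GL (Fin m) A) (hη : Subfield.closure (Set.range (ent η)) = ⊤)
    (g : GL (Fin m) B) (h1 : Pt η g)
    (h2 : ∀ P : MvPolynomial (Fin m × Fin m) ℤ, ev g P = 0 → ev η P = 0) :
    ∃ f : A →+* B, img f η = g := by
  let fη : MvPolynomial (Fin m × Fin m) ℤ →+* A := eval₂Hom (Int.castRingHom A) (ent η)
  let fg : MvPolynomial (Fin m × Fin m) ℤ →+* B := eval₂Hom (Int.castRingHom B) (ent g)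
  have hs : Function.Surjective fη.rangeRestrict := fη.rangeRestrict_surjective
  have hk : RingHom.ker fη.rangeRestrict ≤ RingHom.ker fg := by
    intro P hP
    have h3 : fη P = 0 := by
      have h4 : fη.rangeRestrict P = 0 := hP
      exact congrArg Subtype.val h4
    exact h1 P h3
  let ψ : fη.range →+* B := fη.rangeRestrict.liftOfSurjective hs ⟨fg, hk⟩
  have hψ : ∀ P, ψ (fη.rangeRestrict P) = fg P := fun P =>
    RingHom.liftOfSurjective_comp_apply fη.rangeRestrict hs ⟨fg, hk⟩ P
  have hinj : Function.Injective ψ := by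
    rw [injective_iff_map_eq_zero]
    intro z hz
    obtain ⟨P, rfl⟩ := hs z
    rw [hψ] at hz
    exact Subtype.ext (h2 P hz)
  have hle : Subring.closure (Set.range (ent η)) ≤ fη.range := by
    rw [Subring.closure_le]
    rintro _ ⟨i, rfl⟩
    exact ⟨X i, ev_X η i⟩
  have hfr : IsFractionRing fη.range A := by
    refine IsFractionRing.of_field _ _ fun z => ?_
    have hz : z ∈ Subfield.closure (Set.range (ent η)) := by
      rw [hη]
      exact Subfield.mem_top z
    obtain ⟨a, ha, b, hb, hab⟩ := Subfield.mem_closure_iff.1 hz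
    exact ⟨⟨a, hle ha⟩, ⟨b, hle hb⟩, hab.symm⟩
  refine ⟨IsFractionRing.lift (A := fη.range) hinj, gl_ext fun i => ?_⟩
  have h5 : ent η i = algebraMap fη.range A (fη.rangeRestrict (X i)) := (ev_X η i).symm
  rw [ent_img, h5, IsFractionRing.lift_algebraMap, hψ]
  exact ev_X g i

end basic

section generic

variable {p : ℕ} [Fact p.Prime] {m N : ℕ}

/-- The variables form a transcendence basis. -/
theorem tb_yv (k : Type) [Field k] : IsTranscendenceBasis k (yv N k) := by
  have h1 : Algebra.IsAlgebraic (MvPolynomial (Fin N) k) (RF N k) :=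
    IsLocalization.isAlgebraic _ (nonZeroDivisors _)
  exact (IsTranscendenceBasis.mvPolynomial (Fin N) k).algebraMap_comp

theorem aeval_cast {A : Type} [Field A] [Algebra (ZMod p) A] (g : GL (Fin m) A)
    (q : MvPolynomial (Fin m × Fin m) ℤ) :
    aeval (ent g) (MvPolynomial.map (Int.castRingHom (ZMod p)) q) = ev g q := by
  rw [aeval_def, eval₂_map]
  unfold ev
  congr 1
  exact Subsingleton.elim _ _

/-- Relations with coefficients in the prime field. -/
theorem Pt.rel {A B : Type} [Field A] [Field B] [Algebra (ZMod p) A] [Algebra (ZMod p) B]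
    {η : GL (Fin m) A} {g : GL (Fin m) B} (hg : Pt η g)
    (q : MvPolynomial (Fin m × Fin m) (ZMod p)) (hq : aeval (ent η) q = 0) :
    aeval (ent g) q = 0 := by
  obtain ⟨q', rfl⟩ := MvPolynomial.map_surjective (Int.castRingHom (ZMod p))
    (ZMod.ringHom_surjective _) q
  rw [aeval_cast] at hq ⊢
  exact hg q' hq

variable {K U : Type} [Field K] [Field U] [Algebra K U] [CharP U p] {u : Fin N → U}
  (hu : IsTranscendenceBasis K u) (η : GL (Fin m) (RF N (ZMod p))) (g : GL (Fin m) U)
  (hg : Pt η g) (halg : ∀ i, IsAlgebraic (adjoin K (Set.range (ent g))) (u i))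

include hu hg halg in
/-- Points with enough algebraically independent entries are generic. -/
theorem generic_of_alg (P : MvPolynomial (Fin m × Fin m) ℤ) (hP : ev g P = 0) :
    ev η P = 0 := by
  classical
  let _ : Algebra (ZMod p) U := ZMod.algebra U p
  have cK : CharP K p := by
    have h1 := (algebraMap K U).charP_iff (algebraMap K U).injective p
    exact h1.2 inferInstance
  let _ : Algebra (ZMod p) K := ZMod.algebra K p
  -- entries which form a transcendence basis
  have h1 : Algebra.IsAlgebraic (Algebra.adjoin K (Set.range (ent g))) U := by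
    rw [hu.isAlgebraic_iff (S := Algebra.adjoin K (Set.range (ent g)))]
    intro i
    exact (IsFractionRing.isAlgebraic_iff (Algebra.adjoin K (Set.range (ent g)))
      (adjoin K (Set.range (ent g))) U).2 (halg i)
  obtain ⟨S, hS, hSb⟩ := exists_isTranscendenceBasis_subset (R := K) (Set.range (ent g))
  choose s hs using fun a : S => hS a.2
  have hsb : IsTranscendenceBasis K (fun a : S => ent g (s a)) := by
    have h2 : (fun a : S => ent g (s a)) = ((↑) : S → U) := funext fun a => hs a
    rw [h2]
    exact hSb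
  have hcard : Cardinal.mk S = Cardinal.mk (Fin N) :=
    hsb.cardinalMk_eq_trdeg.trans hu.cardinalMk_eq_trdeg.symm
  have hfS : Finite S := by
    have h2 : Cardinal.mk S < Cardinal.aleph0 := by
      rw [hcard]
      exact Cardinal.mk_lt_aleph0
    exact Cardinal.mk_lt_aleph0_iff.1 h2
  have hind : AlgebraicIndependent (ZMod p) (fun a : S => ent g (s a)) := by
    have t : IsScalarTower (ZMod p) K U := IsScalarTower.of_algebraMap_eq' (Subsingleton.elim _ _)
    exact hsb.1.restrictScalars (algebraMap (ZMod p) K).injective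
  -- the corresponding entries of `η`
  have hind' : AlgebraicIndependent (ZMod p) (fun a : S => ent η (s a)) := by
    rw [algebraicIndependent_iff]
    intro q hq
    rw [algebraicIndependent_iff] at hind
    apply hind
    have h3 : aeval (ent η) (rename s q) = 0 := by
      rw [aeval_rename]
      exact hq
    have h4 := hg.rel _ h3
    rw [aeval_rename] at h4
    exact h4
  have hb' : IsTranscendenceBasis (ZMod p) (fun a : S => ent η (s a)) := by
    refine hind'.isTranscendenceBasis_of_trdeg_le_of_finite ?_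
    rw [hcard, (tb_yv (N := N) (ZMod p)).cardinalMk_eq_trdeg]
  -- a nonzero multiple of the value
  by_contra hne
  have halg' := hb'.isAlgebraic
  obtain ⟨t, ht, r, hr, htr⟩ := (halg'.isAlgebraic (ev η P)).exists_nonzero_eq_adjoin_mul
    (mem_nonZeroDivisors_of_ne_zero hne)
  have hR : ∀ z : Algebra.adjoin (ZMod p) (Set.range fun a : S => ent η (s a)),
      ∃ q : MvPolynomial S (ZMod p), aeval (ent η) (rename s q) = (z : RF N (ZMod p)) := by
    rintro ⟨z, hz⟩
    rw [Algebra.adjoin_range_eq_range_aeval] at hz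
    obtain ⟨q, hq⟩ := hz
    refine ⟨q, ?_⟩
    rw [aeval_rename]
    exact hq
  have hT : ∃ T : MvPolynomial (Fin m × Fin m) (ZMod p), aeval (ent η) T = t := by
    refine Algebra.adjoin_induction (p := fun z _ => ∃ T : MvPolynomial (Fin m × Fin m) (ZMod p),
      aeval (ent η) T = z) ?_ ?_ ?_ ?_ ht
    · intro z hz
      rw [Set.mem_singleton_iff] at hz
      exact ⟨_, (aeval_cast _ P).trans hz.symm⟩
    · intro z
      obtain ⟨q, hq⟩ := hR z
      exact ⟨_, hq⟩
    · rintro x y _ _ ⟨T, rfl⟩ ⟨T', rfl⟩
      exact ⟨T + T', map_add _ _ _⟩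
    · rintro x y _ _ ⟨T, rfl⟩ ⟨T', rfl⟩
      exact ⟨T * T', map_mul _ _ _⟩
  obtain ⟨T, hT⟩ := hT
  obtain ⟨q, hq⟩ := hR r
  have h5 : aeval (ent η) (MvPolynomial.map (Int.castRingHom (ZMod p)) P * T - rename s q) = 0 := by
    rw [map_sub, map_mul, aeval_cast, hT, hq, htr]
    exact sub_self _
  have h6 := hg.rel _ h5
  rw [map_sub, map_mul, aeval_cast, hP, zero_mul, zero_sub, neg_eq_zero, aeval_rename] at h6
  rw [algebraicIndependent_iff] at hind
  have h7 : q = 0 := hind q h6
  apply hr
  apply Subtype.ext
  rw [← hq, h7, map_zero, map_zero]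
  rfl

end generic

end Pool.Agent.L7h25.LG
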