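import Mathlib
import Pool.Agent.L7h25.LG.Gen
import Pool.Agent.Y60.DC.Tens
import Pool.Agent.Y60.DC.AddPoly

/-!
Rational function fields and Frobenius equations for matrices.
-/

set_option autoImplicit false

open IntermediateField MvPolynomial

namespace Pool.Agent.L7h25.LG

open Pool.Agent.Y60.DC

section rf

variable {N : ℕ} {k B : Type} [Field k] [Field B]

theorem rf_hom_ext (f f' : RF N k →+* B) (h0 : ∀ c, f (cst N k c) = f' (cst N k c))
    (h : ∀ i, f (yv N k i) = f' (yv N k i)) : f = f' := by
  apply IsLocalization.ringHom_ext (nonZeroDivisors (MvPolynomial (Fin N) k))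
  apply MvPolynomial.ringHom_ext
  · exact h0
  · exact h

theorem rf_hom_ext' {p : ℕ} [Fact p.Prime] (f f' : RF N (ZMod p) →+* B)
    (h : ∀ i, f (yv N (ZMod p) i) = f' (yv N (ZMod p) i)) : f = f' :=
  rf_hom_ext f f' (fun c => RingHom.congr_fun
    (Subsingleton.elim (f.comp (cst N (ZMod p))) (f'.comp (cst N (ZMod p)))) c) h

theorem exists_rf_hom [Algebra k B] {c : Fin N → B} (hc : AlgebraicIndependent k c) :
    ∃ f : RF N k →+* B, (∀ a, f (cst N k a) = algebraMap k B a) ∧ ∀ i, f (yv N k i) = c i := by
  have h1 : Function.Injective (aeval c : MvPolynomial (Fin N) k →ₐ[k] B).toRingHom := hc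
  refine ⟨IsFractionRing.lift (A := MvPolynomial (Fin N) k) h1, fun a => ?_, fun i => ?_⟩
  · unfold cst
    rw [RingHom.comp_apply, IsFractionRing.lift_algebraMap]
    exact aeval_C c a
  · unfold yv
    rw [IsFractionRing.lift_algebraMap]
    exact aeval_X c i

/-- The constants and the variables generate the field. -/
theorem rf_top (E : Subfield (RF N k)) (h0 : ∀ c, cst N k c ∈ E) (h : ∀ i, yv N k i ∈ E) :
    E = ⊤ := by
  rw [eq_top_iff]
  rintro z -
  have hp : ∀ P : MvPolynomial (Fin N) k, algebraMap _ (RF N k) P ∈ E := by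
    intro P
    induction P using MvPolynomial.induction_on with
    | C a => exact h0 a
    | add P Q hP hQ =>
      rw [map_add]
      exact E.add_mem hP hQ
    | mul_X P i hP =>
      rw [map_mul]
      exact E.mul_mem hP (h i)
  obtain ⟨a, b, hb, rfl⟩ := IsFractionRing.div_surjective (A := MvPolynomial (Fin N) k) z
  exact E.div_mem (hp a) (hp b)

end rf

section frob

variable {p : ℕ} [Fact p.Prime] {m : ℕ} {U : Type} [Field U] [CharP U p]

/-- The Frobenius equation: the entries of the solutions are algebraic. -/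
theorem ent_mem_of_frob (H : Subfield U) (hH : ∀ z : U, IsAlgebraic H z → z ∈ H)
    (Y X : GL (Fin m) U) (hX : ∀ i, ent X i ∈ H) (h : img (frobenius U p) Y = Y * X)
    (i : Fin m × Fin m) : ent Y i ∈ H := by
  apply hH
  let _ : Algebra (ZMod p) U := ZMod.algebra U p
  refine alg_of_frob (p := p) H (fun k => ent Y (i.1, k)) (fun k l => ent X (l, k))
    (fun k l => hX _) (fun k => ?_) i.2
  have h1 : ent (img (frobenius U p) Y) (i.1, k) = (ent Y (i.1, k)) ^ p := rfl
  rw [← h1, h]
  change ((Y : Matrix (Fin m) (Fin m) U) * (X : Matrix (Fin m) (Fin m) U)) i.1 k = _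
  rw [Matrix.mul_apply]
  exact Finset.sum_congr rfl fun l _ => mul_comm _ _

/-- The matrices fixed by the Frobenius. -/
theorem exists_of_frob (h : GL (Fin m) U) (hh : img (frobenius U p) h = h) :
    ∃ h₀ : GL (Fin m) (ZMod p), img (prm p U) h₀ = h := by
  have h1 : ∀ i, ∃ c : ZMod p, prm p U c = ent h i := by
    intro i
    have h2 : ent h i ^ p = ent h i := by
      have h3 : ent (img (frobenius U p) h) i = ent h i := by rw [hh]
      exact h3
    have h4 : ent h i ∈ (⊥ : Subfield U) := (Subfield.mem_bot_iff_pow_eq_self U p).2 h2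
    have h5 : (⊥ : Subfield U) ≤ (prm p U).fieldRange := bot_le
    exact RingHom.mem_fieldRange.1 (h5 h4)
  choose c hc using h1
  let M : Matrix (Fin m) (Fin m) (ZMod p) := fun i j => c (i, j)
  have hM : (prm p U).mapMatrix M = (h : Matrix (Fin m) (Fin m) U) := by
    ext i j
    exact hc (i, j)
  have hd : M.det ≠ 0 := by
    intro h0
    have h6 := RingHom.map_det (prm p U) M
    rw [h0, map_zero, hM] at h6
    exact (Matrix.GeneralLinearGroup.det_ne_zero h) h6.symm
  refine ⟨Matrix.GeneralLinearGroup.mkOfDetNeZero M hd, ?_⟩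
  apply Units.ext
  exact hM

end frob

end Pool.Agent.L7h25.LG
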