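import Mathlib
import Pool.Agent.L7h25.LG.Axl

/-!
Split embedding problems whose kernel is the group of points of a rational algebraic group over the
field with `p` elements.
-/

set_option autoImplicit false

open IntermediateField MvPolynomial

namespace Pool.Agent.L7h25.LG

open Pool.Agent.Y60.DC
open Pool.Agent.H391R2.T4 (RegSol)

section mem

variable {A U : Type} [Field A] [Field U]

theorem prm_mem {p : ℕ} [Fact p.Prime] (f : ZMod p →+* U) (H : Subfield U) (c : ZMod p) :
    f c ∈ H := by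
  have h1 : f c = ((c.val : ℕ) : U) := by
    conv_lhs => rw [← ZMod.natCast_zmod_val c]
    exact map_natCast f _
  rw [h1]
  exact natCast_mem H _

theorem gen_mem {m : ℕ} {η : GL (Fin m) A} (hη : Subfield.closure (Set.range (ent η)) = ⊤)
    (Ψ : A →+* U) (H : Subfield U) (h : ∀ i, ent (img Ψ η) i ∈ H) (z : A) : Ψ z ∈ H := by
  have h1 : Subfield.closure (Set.range (ent η)) ≤ H.comap Ψ := by
    rw [Subfield.closure_le]
    rintro _ ⟨i, rfl⟩
    exact h i
  rw [hη] at h1
  exact h1 (Subfield.mem_top z)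

theorem rf_mem {N : ℕ} {k : Type} [Field k] (Ψ : RF N k →+* U) (H : Subfield U)
    (h0 : ∀ c, Ψ (cst N k c) ∈ H) (h : ∀ i, Ψ (yv N k i) ∈ H) (z : RF N k) : Ψ z ∈ H := by
  have h1 : H.comap Ψ = ⊤ := rf_top (H.comap Ψ) h0 h
  have h2 : z ∈ H.comap Ψ := by
    rw [h1]
    exact Subfield.mem_top z
  exact h2

theorem hull_cl {K V : Type} [Field K] [Field V] [Algebra K V] {ι : Type} (x : ι → V) (z : V)
    (hz : IsAlgebraic (hull K x).toSubfield z) : z ∈ (hull K x).toSubfield := by
  obtain ⟨P, hP0, hP⟩ := hz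
  refine hull_closed x (P.map (algebraMap (hull K x).toSubfield V)) ?_ ?_ z ?_
  · rwa [ne_eq, Polynomial.map_eq_zero_iff (algebraMap (hull K x).toSubfield V).injective]
  · intro n
    rw [Polynomial.coeff_map]
    exact (P.coeff n).2
  · rw [Polynomial.eval_map_algebraMap]
    exact hP

end mem

section main

variable {p : ℕ} [Fact p.Prime]

theorem img_prm {m : ℕ} {U : Type} [Field U] (f f' : ZMod p →+* U) (M : GL (Fin m) (ZMod p)) :
    img f M = img f' M := by
  rw [Subsingleton.elim f f']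

/-- **Rational algebraic groups.** -/
theorem lie_reg {m N : ℕ} (η : GL (Fin m) (RF N (ZMod p)))
    (hη : IsRatGroup p η) {C : Type} [Group C] (w : C →* GL (Fin m) (ZMod p))
    (hw : Normalizes p η w) {G : Type} [Group G] (ι : G →* GL (Fin m) (ZMod p))
    (hι : IsPoints p η ι) (K L : Type) [Field K] [Infinite K] [Field L] [CharP L p] [Algebra K L]
    [FiniteDimensional K L] [IsGalois K L] (b : (L ≃ₐ[K] L) →* C)
    (hR : TwistRational p η w K L b) (φ : (L ≃ₐ[K] L) →* MulAut G)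
    (hφ : ∀ γ, ConjAction w ι (b γ) (φ γ)) :
    RegSol K L (G ⋊[φ] (L ≃ₐ[K] L)) SemidirectProduct.rightHom := by
  classical
  obtain ⟨U, iU, icU, aKU, aLU, tU, u, hu⟩ := exists_univ K L (Fin N)
  have cU : CharP U p := charP_of_injective_algebraMap (algebraMap L U).injective p
  let _ : Algebra (ZMod p) U := ZMod.algebra U p
  have cK : CharP K p := ((algebraMap K U).charP_iff (algebraMap K U).injective p).2 cU
  let _ : Algebra (ZMod p) K := ZMod.algebra K p
  have tZ : IsScalarTower (ZMod p) K U := IsScalarTower.of_algebraMap_eq' (Subsingleton.elim _ _)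
  have hGfin : Finite G := Finite.of_injective ι hι.1
  -- the generic point
  obtain ⟨ΨY, -, hΨY⟩ := exists_rf_hom (N := N) (k := ZMod p) (B := U)
    (hu.1.restrictScalars (algebraMap (ZMod p) K).injective)
  obtain ⟨Y, hY⟩ : ∃ Y, Y = img ΨY η := ⟨_, rfl⟩
  have hYp : Pt η Y := hY ▸ (Pt.self η).img ΨY
  have hYu : ∀ H : Subfield U, (∀ i, ent Y i ∈ H) → ∀ i, u i ∈ H := by
    intro H hH i
    rw [← hΨY i]
    exact gen_mem hη.gen ΨY H (by rw [← hY]; exact hH) _
  let F : U →+* U := frobenius U p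
  have hFprm : ∀ M : GL (Fin m) (ZMod p), img F (img (prm p U) M) = img (prm p U) M := fun M =>
    img_prm (F.comp (prm p U)) (prm p U) M
  have hFσ : ∀ (σ : U ≃ₐ[K] U) (Z : GL (Fin m) U),
      img F (img (σ : U →+* U) Z) = img (σ : U →+* U) (img F Z) := by
    intro σ Z
    have h1 : F.comp (σ : U →+* U) = (σ : U →+* U).comp F :=
      RingHom.ext fun z => (map_pow (σ : U →+* U) z p).symm
    rw [img_img, img_img, h1]
  have hσprm : ∀ (σ : U ≃ₐ[K] U) (M : GL (Fin m) (ZMod p)),
      img (σ : U →+* U) (img (prm p U) M) = img (prm p U) M := fun σ M =>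
    img_prm ((σ : U →+* U).comp (prm p U)) (prm p U) M
  obtain ⟨X, hX⟩ : ∃ X, X = Y⁻¹ * img F Y := ⟨_, rfl⟩
  have hFY : img F Y = Y * X := by rw [hX, mul_inv_cancel_left]
  have hXp : Pt η X := hX ▸ hη.mul U _ _ (hη.inv U _ hYp) (hYp.img F)
  have hXY : ∀ {κ : Type} (x : κ → U), (∀ i, ent X i ∈ (hull K x).toSubfield) →
      ∀ i, u i ∈ (hull K x).toSubfield := by
    intro κ x h
    exact hYu _ (ent_mem_of_frob (p := p) _ (hull_cl x) Y X h hFY)
  -- the image is generic
  obtain ⟨ΨX, hΨX⟩ : ∃ ΨX : RF N (ZMod p) →+* U, img ΨX η = X := by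
    refine exists_hom η hη.gen X hXp (generic_of_alg hu η X hXp fun i => ?_)
    rw [← mem_hull]
    exact hXY _ (fun j => hull_x _ j) i
  obtain ⟨c, hcdef⟩ : ∃ c : Fin N → U, c = fun i => ΨX (yv N (ZMod p) i) := ⟨_, rfl⟩
  have hci : ∀ i, ΨX (yv N (ZMod p) i) = c i := fun i => by rw [hcdef]
  have hc : IsTranscendenceBasis K c := by
    refine tb_of_alg hu c fun i => ?_
    rw [← mem_hull]
    refine hXY _ (fun j => ?_) i
    rw [← hΨX, ent_img]
    refine rf_mem ΨX _ (fun a => prm_mem (ΨX.comp (cst N (ZMod p))) _ a) (fun l => ?_) _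
    rw [hci]
    exact hull_x c l
  have hLc : IsTranscendenceBasis L c := tb_up hc
  obtain ⟨ΨL, hΨL0, hΨL⟩ := exists_rf_hom hLc.1
  obtain ⟨f, x, hf, hx, hσ⟩ := hR
  have hΨLf : ΨL.comp f = ΨX := rf_hom_ext' _ _ fun i => by
    rw [RingHom.comp_apply, hf, hΨL, hci]
  have hXL : img ΨL (img f η) = X := by rw [img_img, hΨLf, hΨX]
  obtain ⟨xU, hxU⟩ : ∃ xU : Fin N → U, xU = fun i => ΨL (x i) := ⟨_, rfl⟩
  have hxi : ∀ i, ΨL (x i) = xU i := fun i => by rw [hxU]
  have hLalg : ∀ l : L, IsAlgebraic K (algebraMap L U l) := fun l =>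
    (Algebra.IsAlgebraic.isAlgebraic (R := K) l).algebraMap
  have hxb : IsTranscendenceBasis K xU := by
    refine tb_of_alg hc xU fun i => ?_
    rw [← mem_hull]
    have h1 : (hull K xU).toSubfield.comap ΨL = ⊤ := by
      refine hx _ (fun l => ?_) (fun j => ?_)
      · change ΨL (cst N L l) ∈ (hull K xU).toSubfield
        rw [hΨL0]
        exact hull_alg xU _ (hLalg l)
      · change ΨL (x j) ∈ (hull K xU).toSubfield
        rw [hxi]
        exact hull_x xU j
    have h2 : yv N L i ∈ (hull K xU).toSubfield.comap ΨL := by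
      rw [h1]
      exact Subfield.mem_top _
    rw [← hΨL]
    exact h2
  -- the twisting matrices
  obtain ⟨W, hW⟩ : ∃ W : (L ≃ₐ[K] L) → GL (Fin m) U, W = fun γ => img (prm p U) (w (b γ)) :=
    ⟨_, rfl⟩
  have hWγ : ∀ γ, W γ = img (prm p U) (w (b γ)) := fun γ => by rw [hW]
  have hWmul : ∀ γ δ, W (γ * δ) = W γ * W δ := fun γ δ => by
    rw [hWγ, hWγ, hWγ, map_mul, map_mul, img_mul]
  have hWone : W 1 = 1 := by rw [hWγ, map_one, map_one, img_one]
  have hFW : ∀ γ, img F (W γ) = W γ := fun γ => by rw [hWγ, hFprm]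
  have hσW : ∀ (σ : U ≃ₐ[K] U) γ, img (σ : U →+* U) (W γ) = W γ := fun σ γ => by
    rw [hWγ, hσprm]
  let bL := Module.finBasis K L
  have hsurj : Function.Surjective (SemidirectProduct.rightHom :
      G ⋊[φ] (L ≃ₐ[K] L) →* (L ≃ₐ[K] L)) :=
    SemidirectProduct.rightHom_surjective
  have hfin : Finite (G ⋊[φ] (L ≃ₐ[K] L)) :=
    Finite.of_equiv _ SemidirectProduct.equivProd.symm
  refine frame K L _ SemidirectProduct.rightHom hsurj U _ xU hxb
    (fun σ g => (∀ l, σ (algebraMap L U l) = algebraMap L U (g.right l)) ∧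
      Y = img (prm p U) (ι g.left) * (W g.right * img (σ : U →+* U) Y * (W g.right)⁻¹))
    ?_ ?_ ?_ (fun σ g h => h.1)
    (Set.range (ent Y) ∪ Set.range fun i => algebraMap L U (bL i))
    ((Set.finite_range _).union (Set.finite_range _)) ?_ ?_
  · -- existence
    intro σ hσx
    obtain ⟨γ, hγ⟩ : ∃ γ : L ≃ₐ[K] L, γ = σ.restrictNormal L := ⟨_, rfl⟩
    have h1 : ∀ l, σ (algebraMap L U l) = algebraMap L U (γ l) := by
      intro l
      rw [hγ, AlgEquiv.restrictNormal_commutes]
    obtain ⟨σ', s1, s2, s3⟩ := hσ γ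
    have hcomp : (σ : U →+* U).comp ΨL = ΨL.comp σ' := by
      have h2 : RingHom.eqLocusField ((σ : U →+* U).comp ΨL) (ΨL.comp σ') = ⊤ := by
        refine hx _ (fun l => ?_) (fun i => ?_)
        · change σ (ΨL (cst N L l)) = ΨL (σ' (cst N L l))
          rw [s1, hΨL0, hΨL0, h1]
        · change σ (ΨL (x i)) = ΨL (σ' (x i))
          rw [s2, hxi, hσx]
      apply RingHom.ext
      intro z
      have h3 : z ∈ RingHom.eqLocusField ((σ : U →+* U).comp ΨL) (ΨL.comp σ') := by
        rw [h2]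
        exact Subfield.mem_top z
      exact h3
    have hσX : img (σ : U →+* U) X = (W γ)⁻¹ * X * W γ := by
      have h4 : img ΨL (img ((cst N L).comp (prm p L)) (w (b γ))) = W γ := by
        rw [img_img, hWγ]
        exact img_prm _ _ _
      calc img (σ : U →+* U) X = img ((σ : U →+* U).comp ΨL) (img f η) := by
            rw [← img_img, hXL]
        _ = img ΨL (img (σ'.comp f) η) := by
            rw [hcomp]
            rfl
        _ = (W γ)⁻¹ * X * W γ := by
            rw [s3, img_mul, img_mul, img_inv, h4, hXL]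
    obtain ⟨θ, hθ⟩ : ∃ θ, θ = W γ * img (σ : U →+* U) Y * (W γ)⁻¹ := ⟨_, rfl⟩
    have hθp : Pt η θ := by
      rw [hθ, hWγ]
      exact hw (b γ) U _ (hYp.img _)
    have hFθ : img F θ = θ * X := by
      rw [hθ, img_mul, img_mul, img_inv, hFW, hFσ, hFY, img_mul, hσX]
      group
    obtain ⟨h, hh⟩ : ∃ h, h = Y * θ⁻¹ := ⟨_, rfl⟩
    have hhp : Pt η h := hh ▸ hη.mul U _ _ hYp (hη.inv U _ hθp)
    have hFh : img (frobenius U p) h = h := by
      change img F h = h
      rw [hh, img_mul, img_inv, hFY, hFθ]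
      group
    obtain ⟨h₀, hh₀⟩ := exists_of_frob h hFh
    have hh₀p : Pt η h₀ := pt_of_img (prm p U) (hh₀ ▸ hhp)
    obtain ⟨n, hn⟩ := (hι.2 h₀).2 hh₀p
    refine ⟨⟨n, γ⟩, h1, ?_⟩
    change Y = img (prm p U) (ι n) * (W γ * img (σ : U →+* U) Y * (W γ)⁻¹)
    rw [hn, hh₀, ← hθ, hh, inv_mul_cancel_right]
  · -- uniqueness
    rintro σ g h ⟨h1, h2⟩ ⟨h3, h4⟩
    have h5 : g.right = h.right := by
      ext l
      apply (algebraMap L U).injective
      rw [← h1, ← h3]
    apply SemidirectProduct.ext _ h5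
    apply hι.1
    apply img_injective (prm p U)
    rw [← h5] at h4
    exact mul_right_cancel (h2.symm.trans h4)
  · -- products
    rintro σ σ' g h ⟨h1, h2⟩ ⟨h3, h4⟩
    refine ⟨fun l => ?_, ?_⟩
    · rw [AlgEquiv.mul_apply, h3, h1]
      rfl
    · have e1 : img (prm p U) (ι (g * h).left) =
          img (prm p U) (ι g.left) * (W g.right * img (prm p U) (ι h.left) * (W g.right)⁻¹) := by
        rw [SemidirectProduct.mul_left, map_mul, hφ g.right, img_mul, img_mul, img_mul, img_inv,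
          hWγ]
      have e2 : W (g * h).right = W g.right * W h.right := by
        rw [SemidirectProduct.mul_right, hWmul]
      have e3 : img ((σ * σ' : U ≃ₐ[K] U) : U →+* U) Y =
          img (σ : U →+* U) (img (σ' : U →+* U) Y) := rfl
      have e4 : img (σ : U →+* U) Y = img (prm p U) (ι h.left) *
          (W h.right * img (σ : U →+* U) (img (σ' : U →+* U) Y) * (W h.right)⁻¹) := by
        conv_lhs => rw [h4]
        rw [img_mul, img_mul, img_mul, img_inv, hσprm, hσW]
      rw [e1, e2, e3]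
      conv_lhs => rw [h2, e4]
      group
  · -- finiteness
    intro σ hσx hS
    refine ⟨fun l => ?_, ?_⟩
    · change σ (algebraMap L U l) = algebraMap L U l
      rw [← bL.sum_repr l, map_sum, map_sum]
      refine Finset.sum_congr rfl fun i _ => ?_
      rw [Algebra.smul_def, map_mul, map_mul, hS _ (Or.inr ⟨i, rfl⟩),
        ← IsScalarTower.algebraMap_apply K L U, AlgEquiv.commutes]
    · have e1 : img (σ : U →+* U) Y = Y := gl_ext fun i => by
        rw [ent_img]
        exact hS _ (Or.inl ⟨i, rfl⟩)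
      change Y = img (prm p U) (ι 1) * (W 1 * img (σ : U →+* U) Y * (W 1)⁻¹)
      rw [e1, map_one, img_one, hWone]
      group
  · -- the kernel
    intro g hg
    have hgr : g.right = 1 := hg
    let A := algebraicClosure K U
    have hAu : IsTranscendenceBasis A u := tb_up hu
    obtain ⟨B, hB⟩ : ∃ B, B = img (prm p U) (ι g.left) := ⟨_, rfl⟩
    have hBp : Pt η B := by
      rw [hB]
      exact ((hι.2 _).1 ⟨_, rfl⟩).img _
    obtain ⟨Y1, hY1⟩ : ∃ Y1, Y1 = B⁻¹ * Y := ⟨_, rfl⟩
    have hYB : Y = B * Y1 := by rw [hY1, mul_inv_cancel_left]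
    have hY1p : Pt η Y1 := hY1 ▸ hη.mul U _ _ (hη.inv U _ hBp) hYp
    have hmem : ∀ H : Subfield U, (∀ i, ent Y1 i ∈ H) → ∀ i, u i ∈ H := by
      intro H hH
      refine hYu H fun i => ?_
      rw [hYB]
      change ((B : Matrix (Fin m) (Fin m) U) * (Y1 : Matrix (Fin m) (Fin m) U)) i.1 i.2 ∈ H
      rw [Matrix.mul_apply]
      refine sum_mem fun l _ => mul_mem ?_ (hH (l, i.2))
      change ent B (i.1, l) ∈ H
      rw [hB, ent_img]
      exact prm_mem _ _ _
    obtain ⟨Ψ1, hΨ1⟩ : ∃ Ψ1 : RF N (ZMod p) →+* U, img Ψ1 η = Y1 := by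
      refine exists_hom η hη.gen Y1 hY1p (generic_of_alg hu η Y1 hY1p fun i => ?_)
      rw [← mem_hull]
      exact hmem (hull K (ent Y1)).toSubfield (fun j => hull_x (ent Y1) j) i
    obtain ⟨u', hu'⟩ : ∃ u' : Fin N → U, u' = fun i => Ψ1 (yv N (ZMod p) i) := ⟨_, rfl⟩
    have hu'i : ∀ i, Ψ1 (yv N (ZMod p) i) = u' i := fun i => by rw [hu']
    have hAu' : IsTranscendenceBasis A u' := by
      refine tb_of_alg hAu u' fun i => ?_
      rw [← mem_hull]
      refine hmem (hull A u').toSubfield (fun j => ?_) i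
      rw [← hΨ1, ent_img]
      refine rf_mem Ψ1 _ (fun a => prm_mem (Ψ1.comp (cst N (ZMod p))) _ a) (fun l => ?_) _
      rw [hu'i]
      exact hull_x u' l
    obtain ⟨σ0, hσ0⟩ := exists_iso A U U _ hAu hAu'
    obtain ⟨σ, hσσ⟩ : ∃ σ : U ≃ₐ[K] U, σ = σ0.restrictScalars K := ⟨_, rfl⟩
    have hfix : ∀ z, IsAlgebraic K z → σ z = z := fun z hz => by
      rw [hσσ]
      exact σ0.commutes ⟨z, mem_algebraicClosure_iff.2 hz⟩
    have hσu : ∀ j, σ (u j) = u' j := fun j => by
      rw [hσσ]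
      exact hσ0 j
    have hσY : img (σ : U →+* U) Y = Y1 := by
      have h1 : (σ : U →+* U).comp ΨY = Ψ1 := rf_hom_ext' _ _ fun i => by
        rw [RingHom.comp_apply, hΨY, hu'i]
        exact hσu i
      rw [hY, img_img, h1, hΨ1]
    have hσX : img (σ : U →+* U) X = X := by
      rw [hX, img_mul, img_inv, ← hFσ, hσY, hY1, img_mul, img_inv]
      have h2 : img F B = B := by rw [hB, hFprm]
      rw [h2]
      group
    have hσΨX : (σ : U →+* U).comp ΨX = ΨX := hom_ext_of_gen hη.gen _ _ (by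
      rw [← img_img, hΨX, hσX])
    have hσc : ∀ i, σ (c i) = c i := fun i => by
      have h3 := RingHom.congr_fun hσΨX (yv N (ZMod p) i)
      rw [RingHom.comp_apply, hci] at h3
      exact h3
    have hσΨL : (σ : U →+* U).comp ΨL = ΨL := rf_hom_ext _ _ (fun a => by
      rw [RingHom.comp_apply, hΨL0]
      exact hfix _ (hLalg a)) (fun i => by
      rw [RingHom.comp_apply, hΨL]
      exact hσc i)
    refine ⟨σ, hfix, fun j => ?_, fun l => ?_, ?_⟩
    · have h4 := RingHom.congr_fun hσΨL (x j)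
      rw [RingHom.comp_apply, hxi] at h4
      exact h4
    · rw [hgr]
      exact hfix _ (hLalg l)
    · rw [hgr, hWone, hσY, ← hB, hYB]
      group

end main

end Pool.Agent.L7h25.LG
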