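import Pool.Agent.L7h25.LG.Voc
import Pool.Agent.L7h25.AN.Lad

/-!
# Groups of Lie type as composition factors, and a class of epimorphisms

* `IsLieType p T`: the group `T` is a quotient of the group of points over `F_p` of a rational
  algebraic group over `F_p`, and there is a group `C` of automorphisms of the algebraic group such
  that all twisted forms by `C` are rational and `C` maps isomorphically onto a complement of the
  inner automorphisms in `Aut T`.
* `FactorC p T`: the composition factors which are allowed.
* `LieStep p π`: split homomorphisms whose kernel is the group of points over `F_p` of a rational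
  algebraic group, with an algebraic action.
* `Chain p π`: the class of homomorphisms.
-/

set_option autoImplicit false

open Pool.Agent.Y60.DC (CompIn)
open Pool.Agent.Y60.DCF (IsComplInn IsSection ConjTo)
open Pool.Agent.TH444.TW (IsInnerPower)
open Pool.Agent.N70.PP.Voc (OccursRegularly)
open Pool.Agent.L7h25.AN (FactorB)

namespace Pool.Agent.L7h25.LG

/-- `T` is a quotient of the group `G` of points over the field with `p` elements of a rational
algebraic group over this field, and there is a group `C` of algebraic automorphisms (conjugations
by the matrices `w x`), all twisted forms by `C` being rational, such that `C` induces a group of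
automorphisms of `T` isomorphic to `C` which is a complement of the group of inner
automorphisms. -/
def IsLieType (p : ℕ) [Fact p.Prime] (T : Type) [Group T] : Prop :=
  ∃ (m N : ℕ) (η : GL (Fin m) (RF N (ZMod p))) (C G : Type) (_ : Group C) (_ : Group G)
    (w : C →* GL (Fin m) (ZMod p)) (ι : G →* GL (Fin m) (ZMod p)) (π : G →* T)
    (c : C →* MulAut T),
    IsRatGroup p η ∧ Normalizes p η w ∧ RationalTwists p η w ∧ IsPoints p η ι ∧
    Function.Surjective π ∧ IsComplInn c ∧
    ∀ (x : C) (a b : G), ι b = w x * ι a * (w x)⁻¹ → c x (π a) = π b

/-- The composition factors which are allowed: the groups `FactorB p T` (groups of order `p`,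
alternating groups `A_n`, `n ≥ 5`, `n ≠ 6`, classical groups in characteristic `p`, complete simple
groups which occur regularly over the field with `p` elements), and the nonabelian simple groups
with `IsLieType p T`. -/
def FactorC (p : ℕ) [Fact p.Prime] (T : Type) [Group T] : Prop :=
  FactorB p T ∨ (IsSimpleGroup T ∧ (∃ a b : T, a * b ≠ b * a) ∧ IsLieType p T)

/-- The kernel of `π : W' → W` is identified by `ι` with the group of points over the field with `p`
elements of a rational algebraic group over this field, `π` has a homomorphic section `s`, and `s y`
acts on the kernel as the algebraic automorphism given by `b y`, where `b` is a homomorphism of `W`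
to a group `C` of algebraic automorphisms such that all twisted forms by `C` are rational. -/
def LieStep (p : ℕ) [Fact p.Prime] {W W' : Type} [Group W] [Group W'] (π : W' →* W) : Prop :=
  ∃ (m N : ℕ) (η : GL (Fin m) (RF N (ZMod p))) (C : Type) (_ : Group C)
    (w : C →* GL (Fin m) (ZMod p)) (ι : π.ker →* GL (Fin m) (ZMod p)) (b : W →* C) (s : W →* W'),
    IsRatGroup p η ∧ Normalizes p η w ∧ RationalTwists p η w ∧ IsPoints p η ι ∧ IsSection π s ∧
    ∀ (y : W) (a a' : π.ker), ConjTo s y a a' → ι a' = w (b y) * ι a * (w (b y))⁻¹

/-- `Chain p π`: the smallest class of homomorphisms `π` of groups which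
* contains all epimorphisms, split or not, with a finite kernel all of whose composition factors
  satisfy `FactorC p`,
* contains all homomorphisms which have a homomorphic section and a finite abelian kernel,
* contains the projections `A^k ⋊ W → W`, where `A` is a finite group which occurs regularly over the
  field with `p` elements and `W` acts through a homomorphism `W → A ≀ S_k` (for example the
  projections `A × W → W`),
* contains all `π` with `LieStep p π`,
* is closed under composition, and under quotients (if `π ∘ q` is in the class and `q` is
  surjective, then `π` is in the class). -/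
inductive Chain (p : ℕ) [Fact p.Prime] :
    ∀ {W W' : Type} [Group W] [Group W'], (W' →* W) → Prop
  /-- epimorphisms (split or not) with a finite kernel whose composition factors are allowed -/
  | kernel {W W' : Type} [Group W] [Group W'] (π : W' →* W) (hs : Function.Surjective π)
      (hfin : Finite π.ker) (h : CompIn (FactorC p) π.ker) : Chain p π
  /-- split, with finite abelian kernel -/
  | abelian {W W' : Type} [Group W] [Group W'] (π : W' →* W) (s : W →* W')
      (hs : ∀ w, π (s w) = w) (hfin : Finite π.ker)
      (hcomm : ∀ x y, π x = 1 → π y = 1 → x * y = y * x) : Chain p π
  /-- `A^k ⋊ W → W` -/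
  | inner {W W' : Type} [Group W] [Group W'] (π : W' →* W) (A : Type) [Group A] [Finite A]
      (hA : OccursRegularly (ZMod p) A) (hp : IsInnerPower A π) : Chain p π
  /-- split, the kernel is the group of points of a rational algebraic group -/
  | lie {W W' : Type} [Group W] [Group W'] (π : W' →* W) (h : LieStep p π) : Chain p π
  /-- compositions -/
  | comp {W W' W'' : Type} [Group W] [Group W'] [Group W''] (π : W' →* W) (q : W'' →* W')
      (hp : Chain p π) (hq : Chain p q) : Chain p (π.comp q)
  /-- quotients -/
  | quot {W W' W'' : Type} [Group W] [Group W'] [Group W''] (π : W' →* W) (q : W'' →* W')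
      (hq : Function.Surjective q) (hpq : Chain p (π.comp q)) : Chain p π

end Pool.Agent.L7h25.LG
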