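import Mathlib
import Pool.Agent.L7h25.LG.Reg
import Pool.Agent.L7h25.LG.VocB
import Pool.Agent.Y60.DC.Clas

/-!
Groups of Lie type as kernels.
-/

set_option autoImplicit false

namespace Pool.Agent.L7h25.LG

open Pool.Agent.Y60.DC
open Pool.Agent.Y60.DCF (IsComplInn IsSection ConjTo)
open Pool.Agent.H391R2.T4 (RegSol)
open Pool.Agent.TH444.TW (RSK exists_sdEquiv)

variable {p : ℕ} [Fact p.Prime]

/-- The action of `C` on the group of points. -/
theorem exists_act {m N : ℕ} {η : GL (Fin m) (RF N (ZMod p))} {C G : Type} [Group C] [Group G]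
    {w : C →* GL (Fin m) (ZMod p)} (hw : Normalizes p η w) {ι : G →* GL (Fin m) (ZMod p)}
    (hι : IsPoints p η ι) : ∃ A : C →* MulAut G, ∀ x, ConjAction w ι x (A x) := by
  have h1 : ∀ (x : C) (a : G), ∃ a', ι a' = w x * ι a * (w x)⁻¹ := by
    intro x a
    have h2 := hw x (ZMod p) (ι a) ((hι.2 _).1 ⟨a, rfl⟩)
    have h3 : img (prm p (ZMod p)) (w x) = w x := by
      rw [img_prm (prm p (ZMod p)) (RingHom.id _)]
      rfl
    rw [h3] at h2
    exact (hι.2 _).2 h2
  choose f hf using h1
  have hinv : ∀ x a, f x⁻¹ (f x a) = a := fun x a => by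
    apply hι.1
    rw [hf, hf, map_inv]
    group
  have hinv' : ∀ x a, f x (f x⁻¹ a) = a := fun x a => by
    apply hι.1
    rw [hf, hf, map_inv]
    group
  let A : C → MulAut G := fun x =>
    { toFun := f x
      invFun := f x⁻¹
      left_inv := hinv x
      right_inv := hinv' x
      map_mul' := fun a b => by
        apply hι.1
        rw [map_mul, hf, hf, hf, map_mul]
        group }
  refine ⟨{ toFun := A, map_one' := ?_, map_mul' := ?_ }, fun x a => hf x a⟩
  · apply MulEquiv.ext
    intro a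
    apply hι.1
    change ι (f 1 a) = ι a
    rw [hf, map_one]
    group
  · intro x y
    apply MulEquiv.ext
    intro a
    apply hι.1
    change ι (f (x * y) a) = ι (f x (f y a))
    rw [hf, hf, hf, map_mul]
    group

/-- All embedding problems whose kernel is a centreless group of Lie type. -/
theorem good_lie (T : Type) [Group T] (hZ : Subgroup.center T = ⊥) (h : IsLieType p T) :
    GoodKerP p T := by
  obtain ⟨m, N, η, C, G, iC, iG, w, ι, π, c, hη, hw, hR, hι, hπ, ⟨hc, hT⟩, hcπ⟩ := h
  intro K L X _ cK _ _ _ _ _ _ α hα ⟨e⟩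
  have cL : CharP L p := charP_of_injective_algebraMap (algebraMap K L).injective p
  obtain ⟨A, hA⟩ := exists_act hw hι
  obtain ⟨β, Θ, hΘ, hβ⟩ := classifyT hZ c.range hT α hα e
  refine Pool.Agent.TH59.WX.reg_transport SemidirectProduct.rightHom α Θ hΘ ?_
  -- lift `β` to `C`
  let E : C ≃* c.range := MonoidHom.ofInjective hc
  let b : (L ≃ₐ[K] L) →* C := E.symm.toMonoidHom.comp (β.codRestrict c.range hβ)
  have hb : ∀ γ, c (b γ) = β γ := fun γ => by
    have h2 : E (b γ) = β.codRestrict c.range hβ γ := E.apply_symm_apply _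
    exact congrArg Subtype.val h2
  let φ : (L ≃ₐ[K] L) →* MulAut G := A.comp b
  have hfG : Finite G := Finite.of_injective ι hι.1
  have h3 := lie_reg η hη w hw ι hι K L b (hR K L b) φ (fun γ => hA (b γ))
  let q : G ⋊[φ] (L ≃ₐ[K] L) →* T ⋊[β] (L ≃ₐ[K] L) :=
    SemidirectProduct.map π (MonoidHom.id _) (by
      intro γ
      apply MonoidHom.ext
      intro a
      change π (φ γ a) = β γ (π a)
      rw [← hb]
      exact (hcπ (b γ) a (φ γ a) (hA (b γ) a)).symm)
  have hq : Function.Surjective q := by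
    rintro ⟨n, y⟩
    obtain ⟨a, rfl⟩ := hπ n
    exact ⟨⟨a, y⟩, rfl⟩
  refine Pool.Agent.W200.IJ.regSol_quot (L' := L) SemidirectProduct.rightHom
    SemidirectProduct.rightHom q hq ?_ ?_ h3
  · intro g
    rw [Pool.Agent.TH444.TW.restrictNormal_self]
    rfl
  · intro σ hσ
    rw [Pool.Agent.TH444.TW.restrictNormal_self] at hσ
    exact ⟨1, map_one _, by rw [map_one, hσ]⟩

/-- Split homomorphisms whose kernel is a group of points. -/
theorem lie_rsk {W W' : Type} [Group W] [Finite W] [Group W'] (π : W' →* W) (h : LieStep p π) :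
    Finite W' ∧ RSK (ZMod p) π := by
  obtain ⟨m, N, η, C, iC, w, ι, b, s, hη, hw, hR, hι, hs, hc⟩ := h
  have hfin : Finite π.ker := Finite.of_injective ι hι.1
  obtain ⟨A, hA⟩ := exists_act hw hι
  let φ : W →* MulAut π.ker := A.comp b
  obtain ⟨e, he⟩ := exists_sdEquiv φ π π.ker.subtype s Subtype.val_injective
    π.ker.range_subtype hs fun y x => by
      have hk : s y * (x : W') * (s y)⁻¹ ∈ π.ker :=
        (MonoidHom.normal_ker π).conj_mem _ x.2 _
      have h2 := hc y x ⟨_, hk⟩ rfl
      have h3 : φ y x = ⟨_, hk⟩ := by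
        apply hι.1
        rw [h2]
        exact hA (b y) x
      change s y * (x : W') = ((φ y x : π.ker) : W') * s y
      rw [h3, inv_mul_cancel_right]
  have hfW' : Finite W' := by
    have : Finite (π.ker ⋊[φ] W) := Finite.of_equiv _ SemidirectProduct.equivProd.symm
    exact Finite.of_equiv _ e.symm.toEquiv
  refine ⟨hfW', ?_⟩
  have h2 : RSK (ZMod p) (SemidirectProduct.rightHom : π.ker ⋊[φ] W →* W) := by
    intro K' M _ _ _ _ _ _ _ ε
    have cK : CharP K' p := charP_of_injective_algebraMap (algebraMap (ZMod p) K').injective p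
    have cM : CharP M p := charP_of_injective_algebraMap (algebraMap K' M).injective p
    have h3 := lie_reg η hη w hw ι hι K' M (b.comp ε.toMonoidHom) (hR K' M _)
      (φ.comp ε.toMonoidHom) (fun γ => hA (b (ε γ)))
    let q : π.ker ⋊[φ.comp ε.toMonoidHom] (M ≃ₐ[K'] M) →* π.ker ⋊[φ] W :=
      SemidirectProduct.map (MonoidHom.id _) ε.toMonoidHom (fun γ => rfl)
    have hq : Function.Surjective q := by
      rintro ⟨n, y⟩
      exact ⟨⟨n, ε.symm y⟩, SemidirectProduct.ext rfl (ε.apply_symm_apply y)⟩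
    refine Pool.Agent.W200.IJ.regSol_quot (L' := M) _ SemidirectProduct.rightHom q hq ?_ ?_ h3
    · intro g
      rw [Pool.Agent.TH444.TW.restrictNormal_self]
      exact ε.symm_apply_apply _
    · intro σ hσ
      rw [Pool.Agent.TH444.TW.restrictNormal_self] at hσ
      exact ⟨1, map_one _, by rw [map_one, hσ]⟩
  refine RSK.congr h2 e.symm fun x => ?_
  obtain ⟨y, rfl⟩ := e.surjective x
  rw [MulEquiv.symm_apply_apply]
  exact (he y).symm

end Pool.Agent.L7h25.LG
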