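import Mathlib
import Pool.Agent.L7h25.LG.Step
import Pool.Agent.L7h25.AN.LadB

/-!
The class `Chain p`: realizations.
-/

set_option autoImplicit false

namespace Pool.Agent.L7h25.LG

open Pool.Agent.Y60.DC Pool.Agent.Y60.DCF
open Pool.Agent.H391R2.T4 (RegSol WeakSol HilbField)
open Pool.Agent.TH15.IGP (Lim)
open Pool.Agent.TH444.TW (Cls RS RSK RegularOver infinite_ratFunc infinite_of_hilb)
open Pool.Agent.TH377.IG (SpecProp spec_hilb)
open Pool.Agent.N600.UK (cl_of_center)
open Pool.Agent.N70.PP.Voc (Occurs OccursRegularly Hilbertian OccursIff OccursAll Solvable)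
open Pool.Agent.L7h25.AN (FacB FactorB FactorA center_of_simple rskA_field occursIff_rsk altGood
  occurs_unit regular_unit StepA)

variable {p : ℕ} [Fact p.Prime]

/-- The class of composition factors in the form used in the recursion. -/
def FacL (p : ℕ) [Fact p.Prime] (T : Type) [Group T] : Prop :=
  FacB p T ∨ (IsSimpleGroup T ∧ (∃ a b : T, a * b ≠ b * a) ∧ IsLieType p T)

theorem FactorC.old {T : Type} [Group T] (h : FactorC p T) : FacL p T := by
  rcases h with h | h
  · exact Or.inl (FactorB.old h)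
  · exact Or.inr h

theorem IsLieType.finite {T : Type} [Group T] (h : IsLieType p T) : Finite T := by
  obtain ⟨m, N, η, C, G, iC, iG, w, ι, π, c, hη, hw, hR, hι, hπ, hc, hcπ⟩ := h
  have hfG : Finite G := Finite.of_injective ι hι.1
  exact Finite.of_surjective π hπ

theorem IsLieType.iso {T T' : Type} [Group T] [Group T'] (e : T ≃* T') (h : IsLieType p T) :
    IsLieType p T' := by
  obtain ⟨m, N, η, C, G, iC, iG, w, ι, π, c, hη, hw, hR, hι, hπ, ⟨hc, hT⟩, hcπ⟩ := h
  refine ⟨m, N, η, C, G, iC, iG, w, ι, e.toMonoidHom.comp π, (MulAut.congr e).toMonoidHom.comp c,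
    hη, hw, hR, hι, e.surjective.comp hπ, ⟨(MulAut.congr e).injective.comp hc, ?_⟩, ?_⟩
  · have h1 : ((MulAut.congr e).toMonoidHom.comp c).range =
        c.range.map (MulAut.congr e).toMonoidHom := MonoidHom.range_comp _ _
    have h2 : (MulAut.conj : T' →* MulAut T').range =
        (MulAut.conj : T →* MulAut T).range.map (MulAut.congr e).toMonoidHom := by
      ext f
      constructor
      · rintro ⟨g, rfl⟩
        refine ⟨MulAut.conj (e.symm g), ⟨_, rfl⟩, ?_⟩
        apply MulEquiv.ext
        intro x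
        change e (e.symm g * e.symm x * (e.symm g)⁻¹) = g * x * g⁻¹
        rw [map_mul, map_mul, map_inv, e.apply_symm_apply, e.apply_symm_apply]
      · rintro ⟨_, ⟨g, rfl⟩, rfl⟩
        refine ⟨e g, ?_⟩
        apply MulEquiv.ext
        intro x
        change e g * x * (e g)⁻¹ = e (g * e.symm x * g⁻¹)
        rw [map_mul, map_mul, map_inv, e.apply_symm_apply]
    rw [h1, h2]
    exact (MulAut.congr e).mapSubgroup.isCompl hT
  · intro x a b hab
    change e (c x (e.symm (e (π a)))) = e (π b)
    rw [e.symm_apply_apply, hcπ x a b hab]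

theorem FacL.iso (T T' : Type) [Group T] [Group T']
    (e : Nonempty (T ≃* T')) (h : FacL p T) : FacL p T' := by
  obtain ⟨e⟩ := e
  rcases h with h | ⟨h1, ⟨a, b, hab⟩, h3⟩
  · exact Or.inl (FacB.iso T T' ⟨e⟩ h)
  · refine Or.inr ⟨e.symm.isSimpleGroup, ⟨e a, e b, fun h => hab ?_⟩, h3.iso e⟩
    apply e.injective
    rw [map_mul, map_mul, h]

theorem FacL.simple (T : Type) [Group T] (h : FacL p T) : IsSimpleGroup T := by
  rcases h with h | h
  · exact FacB.simple T h
  · exact h.1

theorem FacL.good (T : Type) [Group T] (h : FacL p T) :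
    Nat.card T = p ∨ (Finite T ∧ Subgroup.center T = ⊥ ∧ GoodKerP p T) := by
  rcases h with h | ⟨h1, h2, h3⟩
  · exact FacB.good T h
  · right
    have hc := center_of_simple T h1 h2
    exact ⟨h3.finite, hc, good_lie T hc h3⟩

/-- Embedding problems over infinite fields of characteristic `p` whose kernel has composition
factors in `FacL p`. -/
theorem regL_inf (K L X : Type) [Field K] [CharP K p]
    [Infinite K] [Field L] [Algebra K L] [FiniteDimensional K L] [IsGalois K L] [Group X]
    [Finite X] (α : X →* (L ≃ₐ[K] L)) (hα : Function.Surjective α)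
    (h : CompIn (FacL p) α.ker) : RegSol K L X α :=
  kern_reg_gen p (fun T _ => FacL p T) (fun T T' _ _ e h => FacL.iso T T' e h)
    (fun T _ h => FacL.simple T h) (fun T _ h => FacL.good T h) _ K L X α hα h rfl

theorem rskL {W W' : Type} [Group W] [Group W'] (π : W' →* W) (hs : Function.Surjective π)
    [Finite W'] (h : CompIn (FacL p) π.ker) : RSK (ZMod p) π := by
  intro K' M _ _ _ _ _ _ _ ε
  have hc : CharP K' p := charP_of_injective_algebraMap (algebraMap (ZMod p) K').injective p
  refine regL_inf K' M _ _ (ε.symm.surjective.comp hs) ?_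
  have h1 : (ε.symm.toMonoidHom.comp π).ker = π.ker := by
    ext x
    rw [MonoidHom.mem_ker, MonoidHom.mem_ker]
    exact map_eq_one_iff ε.symm ε.symm.injective
  rw [h1]
  exact h

theorem Chain.surjective {W W' : Type} [Group W] [Group W'] {π : W' →* W} (h : Chain p π) :
    Function.Surjective π := by
  induction h with
  | kernel π hs hfin h => exact hs
  | abelian π s hs hfin hcomm => exact fun w => ⟨s w, hs w⟩
  | inner π A hA hp =>
    obtain ⟨k, ψ, ι, s, h1, h2, h3, h4⟩ := hp
    exact fun w => ⟨s w, h3 w⟩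
  | lie π h =>
    obtain ⟨m, N, η, C, iC, w, ι, b, s, hη, hw, hR, hι, hs, hc⟩ := h
    exact fun w => ⟨s w, hs w⟩
  | comp π q _ _ h1 h2 => exact h1.comp h2
  | quot π q hq _ h =>
    intro w
    obtain ⟨x, hx⟩ := h w
    exact ⟨q x, hx⟩

theorem Chain.main {W W' : Type} [Group W] [Group W'] {π : W' →* W} (h : Chain p π) :
    Finite W → Finite W' ∧ RSK (ZMod p) π := by
  induction h with
  | kernel π hs hfin h =>
    intro hW
    have hW' : Finite _ := Pool.Agent.TH444.TW.finite_of_ker π
    exact ⟨hW', rskL π hs (compIn_mono (fun T _ h => FactorC.old h) h)⟩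
  | abelian π s hs hfin hcomm =>
    exact (StepA.base π (Step.base π (Cls.abelian π s hs hfin hcomm))).main p (altGood p)
  | inner π A hA hp =>
    exact (StepA.base π (Step.base π (Cls.inner π A hA hp))).main p (altGood p)
  | lie π h =>
    intro hW
    exact lie_rsk π h
  | comp π q hp hq ihp ihq =>
    intro hW
    obtain ⟨h1, h2⟩ := ihp hW
    obtain ⟨h3, h4⟩ := ihq h1
    exact ⟨h3, RSK.comp h2 h4⟩
  | quot π q hq hpq ih =>
    intro hW
    obtain ⟨h1, h2⟩ := ih hW
    exact ⟨Finite.of_surjective q hq, RSK.quot q hq (fun x => rfl) h2⟩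

theorem Chain.occursIff {X Y : Type} [Group X] [Group Y] [Finite Y] {π : X →* Y}
    (h : Chain p π) : OccursIff p X Y := by
  obtain ⟨h1, h2⟩ := h.main inferInstance
  exact occursIff_rsk π h.surjective h2

/-- Groups whose composition factors are allowed. -/
theorem occursAll_of_compInL (X : Type) [Group X] [Finite X]
    (h : CompIn (FactorC p) X) : OccursAll p X := by
  have e : X ≃* (⊤ : Subgroup X) := (Subgroup.topEquiv).symm
  have h0 : CompIn (FacL p) X := compIn_mono (fun T _ h => FactorC.old h) h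
  have h1 : CompIn (FacL p) (⊤ : Subgroup X) :=
    Pool.Agent.Y419.DC.quot (fun T T' _ _ h h' => FacL.iso T T' h h')
        (fun T _ h => FacL.simple T h) h0 _ e.toMonoidHom e.surjective
  have hr : RSK (ZMod p) (QuotientGroup.mk' (⊤ : Subgroup X)) := by
    refine rskL _ (QuotientGroup.mk'_surjective _) ?_
    rw [QuotientGroup.ker_mk']
    exact h1
  obtain ⟨g1, g2, g3⟩ := occursIff_rsk _ (QuotientGroup.mk'_surjective (⊤ : Subgroup X)) hr
  have hss : Subsingleton (X ⧸ (⊤ : Subgroup X)) := QuotientGroup.subsingleton_quotient_top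
  exact ⟨fun k _ _ => (g1 k).2 (occurs_unit _ _), fun K _ _ hK => (g2 K hK).2 (occurs_unit _ _),
    fun K _ _ => (g3 K).2 (regular_unit K _)⟩

end Pool.Agent.L7h25.LG
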